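import Pool.Agent.Helper7.EC_E.GoalsR

/-! Packet RS: summability and bounds of the inner sums. -/

set_option autoImplicit false

open MeasureTheory Filter Topology Set

namespace EC237.ZE.PkRS

open EC237 EC237.ZE

theorem pw_nonneg (k : ℤ × ℤ) : 0 ≤ pw k := by
  unfold pw rk
  positivity

theorem rk_nonneg (k : ℤ × ℤ) : 0 ≤ rk k := Real.sqrt_nonneg _

theorem cl_ne {c : ℤ} (hc : c = 1 ∨ c = 3 ∨ c = 5) {k : ℤ × ℤ} (h : InCl c k) : k ≠ 0 := by
  obtain ⟨a, b⟩ := k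
  simp only [InCl] at h
  simp only [ne_eq, Prod.ext_iff, Prod.fst_zero, Prod.snd_zero]
  omega

theorem thm (h1 : EC237.B2) (h2 : EC237.B4) : G_RS := by
  intro y hy
  obtain ⟨C, hC, H⟩ := h1 y hy
  have hyB : (y:ℂ) ∈ Bd y := Metric.mem_ball_self (by positivity)
  have Hy := (H (y:ℂ) hyB).1
  have hpw := h2.1
  set S : ℝ := ∑' k, pw k with hS
  have hS0 : 0 ≤ S := tsum_nonneg pw_nonneg
  refine ⟨C * (S + S) + 1, by positivity, ?_⟩
  intro s hs c1 c2 hc1 hc2 a1 a2 ha1 ha2 i hi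
  set e : ℝ := rk s ^ (ex3 i) with he
  have he0 : 0 ≤ e := Real.rpow_nonneg (rk_nonneg s) _
  have hsub : Summable (fun k : ℤ × ℤ => pw (s - k)) :=
    (Equiv.subLeft s).summable_iff.2 hpw
  have hsubS : ∑' k : ℤ × ℤ, pw (s - k) = S := (Equiv.subLeft s).tsum_eq pw
  have hM : Summable (fun k : ℤ × ℤ => C * e * (pw k + pw (s - k))) :=
    (hpw.add hsub).mul_left _
  have hMS : ∑' k : ℤ × ℤ, C * e * (pw k + pw (s - k)) = C * e * (S + S) := by
    rw [tsum_mul_left, Summable.tsum_add hpw hsub, hsubS]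
  have hb : ∀ k : ℤ × ℤ, ‖(if InCl c1 k ∧ InCl c2 (s - k) then
      PowerSeries.coeff i (XX (y:ℂ) (k, a1) (s - k, a2)) else 0 : ℂ)‖ ≤
      C * e * (pw k + pw (s - k)) := by
    intro k
    by_cases h : InCl c1 k ∧ InCl c2 (s - k)
    · rw [if_pos h]
      have g := Hy (k, a1) (s - k, a2) ha1 ha2 (cl_ne hc1 h.1) (cl_ne hc2 h.2)
        (by simpa using hs)
      have hks : (k + (s - k) : ℤ × ℤ) = s := by abel
      simp only [hks] at g
      obtain ⟨g0, g1, g2⟩ := g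
      interval_cases i
      · simpa [he, ex3] using g0
      · simpa [he, ex3] using g1
      · simpa [he, ex3] using g2
    · rw [if_neg h, norm_zero]
      have := pw_nonneg k
      have := pw_nonneg (s - k)
      positivity
  refine ⟨Summable.of_norm_bounded hM hb, ?_⟩
  calc ‖XS c1 c2 a1 a2 i (y:ℂ) s‖ ≤ ∑' k : ℤ × ℤ, C * e * (pw k + pw (s - k)) :=
        tsum_of_norm_bounded hM.hasSum hb
    _ = C * e * (S + S) := hMS
    _ ≤ (C * (S + S) + 1) * e := by nlinarith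

end EC237.ZE.PkRS
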